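import Pool.Agent.K4H10.PR.Spec

/-! A Galois conjugation of sums of roots of unity. -/

set_option autoImplicit false

namespace Pool.Agent.K4H10.PR

open IntermediateField

theorem gal_pow_congr {x : ℂ} {m k l : ℕ} (hx : x ^ m = 1) (h : k ≡ l [MOD m]) :
    x ^ k = x ^ l := by
  have h' : k % m = l % m := h
  rw [← Nat.mod_add_div k m, ← Nat.mod_add_div l m, pow_add, pow_add, pow_mul, pow_mul, hx,
    one_pow, one_pow, h']

theorem gal : StGal := by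
  intro p a N c hp ha hc hpc ι _ v ζ z hv hζ hsum
  obtain ⟨b, c', hpc', hcb⟩ := Nat.exists_eq_pow_mul_and_not_dvd hc.ne' p hp.ne_one
  have hba : b < a := by
    by_contra hcon
    exact hpc (hcb ▸ Dvd.dvd.mul_right (pow_dvd_pow p (not_lt.1 hcon)) c')
  have hc'0 : 0 < c' := Nat.pos_of_ne_zero (by rintro rfl; exact hpc' (dvd_zero p))
  have hcop : Nat.Coprime p c' := (Nat.Prime.coprime_iff_not_dvd hp).2 hpc'
  set M := N + a with hM
  obtain ⟨k, hk1, hk2⟩ := Nat.chineseRemainder (Nat.Coprime.pow_left M hcop) (1 + p ^ (a - 1)) 1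
  set n := p ^ M * c' with hn
  have hn0 : 0 < n := Nat.mul_pos (pow_pos hp.pos M) hc'0
  have hkb : k ≡ 1 [MOD p ^ b] := by
    have h1 : k ≡ 1 + p ^ (a - 1) [MOD p ^ b] := hk1.of_dvd (pow_dvd_pow p (by omega))
    have h2 : 1 + p ^ (a - 1) ≡ 1 + 0 [MOD p ^ b] :=
      Nat.ModEq.add_left 1 ((Nat.modEq_zero_iff_dvd).2 (pow_dvd_pow p (by omega)))
    exact h1.trans h2
  have hkc : k ≡ 1 [MOD c] := by
    rw [hcb]
    exact (Nat.modEq_and_modEq_iff_modEq_mul (Nat.Coprime.pow_left b hcop)).1 ⟨hkb, hk2⟩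
  have hkp : k ≡ 1 [MOD p] := by
    have h1 : k ≡ 1 + p ^ (a - 1) [MOD p] := hk1.of_dvd (dvd_pow_self p (by omega))
    have h2 : 1 + p ^ (a - 1) ≡ 1 + 0 [MOD p] :=
      Nat.ModEq.add_left 1 ((Nat.modEq_zero_iff_dvd).2 (dvd_pow_self p (by omega)))
    exact h1.trans h2
  have hkn : Nat.Coprime k n := by
    rw [hn]
    refine Nat.Coprime.mul_right (Nat.Coprime.pow_right M ?_) ?_
    · have := hkp.gcd_eq
      rw [Nat.gcd_one_left] at this
      exact this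
    · have := hk2.gcd_eq
      rw [Nat.gcd_one_left] at this
      exact this
  set w : ℂ := Complex.exp (2 * Real.pi * Complex.I / n) with hw
  have hwp : IsPrimitiveRoot w n := Complex.isPrimitiveRoot_exp n hn0.ne'
  have hint : IsIntegral ℚ w := (hwp.isIntegral hn0).tower_top
  have hroot : w ^ k ∈ (minpoly ℚ w).aroots ℂ := by
    rw [Polynomial.mem_aroots]
    refine ⟨minpoly.ne_zero hint, ?_⟩
    rw [← Polynomial.cyclotomic_eq_minpoly_rat hwp hn0,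
      Polynomial.cyclotomic_eq_minpoly_rat (hwp.pow_of_coprime k hkn) hn0]
    exact minpoly.aeval ℚ (w ^ k)
  let φ : ℚ⟮w⟯ →ₐ[ℚ] ℂ := (algHomAdjoinIntegralEquiv ℚ hint).symm ⟨w ^ k, hroot⟩
  have hφ : φ (AdjoinSimple.gen ℚ w) = w ^ k := algHomAdjoinIntegralEquiv_symm_apply_gen ℚ hint _
  have hmem : ∀ x : ℂ, x ^ n = 1 → x ∈ ℚ⟮w⟯ := by
    intro x hx
    haveI : NeZero n := ⟨hn0.ne'⟩
    obtain ⟨j, -, rfl⟩ := hwp.eq_pow_of_pow_eq_one hx
    exact pow_mem (mem_adjoin_simple_self ℚ w) j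
  have hA : ∀ (x : ℂ) (hx : x ^ n = 1), φ ⟨x, hmem x hx⟩ = x ^ k := by
    intro x hx
    haveI : NeZero n := ⟨hn0.ne'⟩
    obtain ⟨j, -, hj⟩ := hwp.eq_pow_of_pow_eq_one hx
    have h1 : (⟨x, hmem x hx⟩ : ℚ⟮w⟯) = AdjoinSimple.gen ℚ w ^ j := by
      apply Subtype.ext
      rw [SubmonoidClass.coe_pow, AdjoinSimple.coe_gen, hj]
    rw [h1, map_pow, hφ, ← pow_mul, mul_comm, pow_mul, hj]
  have hcn : c ∣ n := by
    rw [hcb, hn]
    exact Nat.mul_dvd_mul_right (pow_dvd_pow p (by omega)) c'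
  have hgc : Complex.exp (2 * Real.pi * Complex.I / c) ^ c = 1 :=
    (Complex.isPrimitiveRoot_exp c hc.ne').pow_eq_one
  have hgn : Complex.exp (2 * Real.pi * Complex.I / c) ^ n = 1 := by
    obtain ⟨d, hd⟩ := hcn
    rw [hd, pow_mul, hgc, one_pow]
  have hle : cyc c ≤ ℚ⟮w⟯ := by
    unfold cyc
    rw [adjoin_le_iff, Set.singleton_subset_iff]
    exact hmem _ hgn
  have hB : ∀ (x : ℂ) (hx : x ∈ cyc c), φ ⟨x, hle hx⟩ = x := by
    intro x hx
    refine adjoin_induction ℚ (p := fun x hx => φ ⟨x, hle hx⟩ = x) ?_ ?_ ?_ ?_ ?_ hx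
    · intro y hy
      rw [Set.mem_singleton_iff] at hy
      subst hy
      rw [hA _ hgn, gal_pow_congr hgc hkc, pow_one]
    · intro y
      exact φ.commutes y
    · intro y y' hy hy' h1 h2
      have : (⟨y + y', hle (add_mem hy hy')⟩ : ℚ⟮w⟯) = ⟨y, hle hy⟩ + ⟨y', hle hy'⟩ := rfl
      rw [this, map_add, h1, h2]
    · intro y hy h1
      have : (⟨y⁻¹, hle (inv_mem hy)⟩ : ℚ⟮w⟯) = (⟨y, hle hy⟩)⁻¹ := rfl
      rw [this, map_inv₀, h1]
    · intro y y' hy hy' h1 h2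
      have : (⟨y * y', hle (mul_mem hy hy')⟩ : ℚ⟮w⟯) = ⟨y, hle hy⟩ * ⟨y', hle hy'⟩ := rfl
      rw [this, map_mul, h1, h2]
  have hζn : ∀ i, ζ i ^ n = 1 := by
    intro i
    have : n = p ^ N * (p ^ a * c') := by rw [hn, hM, pow_add, mul_assoc]
    rw [this, pow_mul, hζ i, one_pow]
  have hs : (∑ i, (⟨v i, hle (hv i)⟩ : ℚ⟮w⟯) * ⟨ζ i, hmem _ (hζn i)⟩) = algebraMap ℚ ℚ⟮w⟯ z := by
    apply Subtype.ext
    push_cast
    rw [hsum]
    rfl
  have h2 := congrArg φ hs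
  rw [map_sum, φ.commutes] at h2
  have h3 : (algebraMap ℚ ℂ) z = (z : ℂ) := rfl
  rw [h3] at h2
  rw [← h2]
  refine Finset.sum_congr rfl fun i _ => ?_
  rw [map_mul, hB _ (hv i), hA _ (hζn i)]
  congr 1
  exact (gal_pow_congr (hζ i) (hk1.of_dvd (pow_dvd_pow p (by omega)))).symm

end Pool.Agent.K4H10.PR
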