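import Pool.Agent.K4H10.PR.Spec

/-! The multiplicity of a linear character in a representation. -/

set_option autoImplicit false

namespace Pool.Agent.K4H10.PR

/-- the representation twisted by the inverse of a linear character -/
noncomputable def twistRep {Q : Type} [Group Q] {V : Type} [AddCommGroup V] [Module ℂ V]
    (ρ : Q →* (V →ₗ[ℂ] V)) (lam : Q →* ℂˣ) : Representation ℂ Q V where
  toFun := fun x => (((lam x)⁻¹ : ℂˣ) : ℂ) • ρ x
  map_one' := by simp
  map_mul' := fun x y => by
    rw [map_mul, map_mul, mul_inv, Units.val_mul, smul_mul_smul_comm]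

theorem mul : StMul := by
  intro Q _ _ V _ _ _ ρ lam
  haveI : Invertible (Fintype.card Q : ℂ) :=
    invertibleOfNonzero (by exact_mod_cast Fintype.card_ne_zero)
  have h := (Representation.isProj_averageMap (twistRep ρ lam)).trace
  have hinv : Representation.invariants (twistRep ρ lam) =
      (⨅ x : Q, LinearMap.ker (ρ x - ((lam x : ℂˣ) : ℂ) • LinearMap.id) : Submodule ℂ V) := by
    ext v
    rw [Representation.mem_invariants, Submodule.mem_iInf]
    refine forall_congr' fun x => ?_
    rw [LinearMap.mem_ker, LinearMap.sub_apply, LinearMap.smul_apply, LinearMap.id_apply,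
      sub_eq_zero]
    change (((lam x)⁻¹ : ℂˣ) : ℂ) • ρ x v = v ↔ _
    constructor
    · intro h1
      rw [← h1, smul_smul, ← Units.val_mul, mul_inv_cancel, Units.val_one, one_smul, h1]
    · intro h1
      rw [h1, smul_smul, ← Units.val_mul, inv_mul_cancel, Units.val_one, one_smul]
  rw [← hinv, ← h]
  simp only [Representation.averageMap, GroupAlgebra.average, map_smul, map_sum,
    Representation.asAlgebraHom_of, smul_eq_mul]
  rw [invOf_eq_inv]
  congr 1
  refine Finset.sum_congr rfl fun x _ => ?_
  change _ = LinearMap.trace ℂ V ((((lam x)⁻¹ : ℂˣ) : ℂ) • ρ x)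
  rw [map_smul, smul_eq_mul, mul_comm]

end Pool.Agent.K4H10.PR
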