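import Pool.Agent.K4H75.OS.Spec

/-!
# A graph and a collapsible set of triangles in it: an Euler inequality
-/

set_option autoImplicit false

namespace Pool.Agent.K4H75.OS

open Finset

theorem eul_mem_edges {n : ℕ} {G : SimpleGraph (Fin n)} {e : Finset (Fin n)} :
    e ∈ edges G ↔ e.card = 2 ∧ ∀ a ∈ e, ∀ b ∈ e, a ≠ b → G.Adj a b := by
  simp only [edges, mem_filter, mem_powersetCard, subset_univ, true_and]

theorem eul_next {V : Type} (H : SimpleGraph V) {v r : V} (h : H.Reachable v r) (hv : v ≠ r) :
    ∃ w, H.Adj v w ∧ H.Reachable w r ∧ H.dist w r < H.dist v r := by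
  obtain ⟨p, hp⟩ := h.exists_walk_length_eq_dist
  cases p with
  | nil => exact absurd rfl hv
  | cons hadj q =>
    refine ⟨_, hadj, ⟨q⟩, ?_⟩
    rw [SimpleGraph.Walk.length_cons] at hp
    have := SimpleGraph.dist_le q
    omega

/-- the case without triangles -/
theorem eul_base {n : ℕ} (G : SimpleGraph (Fin n)) (S : Finset (Fin n)) :
    S.card ≤ ((edges G).filter fun e => e ⊆ S).card + comps G S := by
  classical
  let H := G.induce (S : Set (Fin n))
  let root : ↥(S : Set (Fin n)) → ↥(S : Set (Fin n)) := fun v => (H.connectedComponentMk v).out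
  have hroot : ∀ v, H.Reachable v (root v) := by
    intro v
    apply SimpleGraph.ConnectedComponent.exact
    exact (Quot.out_eq (H.connectedComponentMk v)).symm
  have hsame : ∀ v w, H.Reachable v w → root v = root w := by
    intro v w h
    show (H.connectedComponentMk v).out = (H.connectedComponentMk w).out
    rw [SimpleGraph.ConnectedComponent.sound h]
  have hnext : ∀ v, ∃ w, v ≠ root v → H.Adj v w ∧ H.dist w (root w) < H.dist v (root v) := by
    intro v
    by_cases hv : v = root v
    · exact ⟨v, fun h => absurd hv h⟩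
    · obtain ⟨w, h1, h2, h3⟩ := eul_next H (hroot v) hv
      refine ⟨w, fun _ => ⟨h1, ?_⟩⟩
      rw [← hsame v w h1.reachable]
      exact h3
  choose w hw using hnext
  let E := (edges G).filter fun e => e ⊆ S
  have hmem : ∀ v, v ≠ root v → ({(v : Fin n), (w v : Fin n)} : Finset (Fin n)) ∈ E := by
    intro v hv
    obtain ⟨h1, -⟩ := hw v hv
    have h2 : G.Adj (v : Fin n) (w v : Fin n) := h1
    rw [mem_filter, eul_mem_edges]
    refine ⟨⟨card_pair h2.ne, ?_⟩, ?_⟩
    · intro a ha b hb hab
      rw [mem_insert, mem_singleton] at ha hb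
      rcases ha with rfl | rfl <;> rcases hb with rfl | rfl
      · exact absurd rfl hab
      · exact h2
      · exact h2.symm
      · exact absurd rfl hab
    · intro a ha
      rw [mem_insert, mem_singleton] at ha
      rcases ha with rfl | rfl
      · exact v.2
      · exact (w v).2
  let φ : ↥(S : Set (Fin n)) → {e // e ∈ E} ⊕ H.ConnectedComponent := fun v =>
    if h : v = root v then Sum.inr (H.connectedComponentMk v) else Sum.inl ⟨_, hmem v h⟩
  have hφ : Function.Injective φ := by
    intro v v' hvv
    by_cases h1 : v = root v <;> by_cases h2 : v' = root v'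
    · simp only [φ, dif_pos h1, dif_pos h2, Sum.inr.injEq] at hvv
      rw [h1, h2]
      exact hsame v v' (SimpleGraph.ConnectedComponent.exact hvv)
    · simp only [φ, dif_pos h1, dif_neg h2] at hvv
      exact absurd hvv (by simp)
    · simp only [φ, dif_neg h1, dif_pos h2] at hvv
      exact absurd hvv (by simp)
    · simp only [φ, dif_neg h1, dif_neg h2, Sum.inl.injEq, Subtype.mk.injEq] at hvv
      by_contra hne
      have hne' : (v : Fin n) ≠ v' := fun h => hne (Subtype.ext h)
      have h3 : (v : Fin n) ∈ ({(v' : Fin n), (w v' : Fin n)} : Finset (Fin n)) := by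
        rw [← hvv]; simp
      have h4 : (v' : Fin n) ∈ ({(v : Fin n), (w v : Fin n)} : Finset (Fin n)) := by
        rw [hvv]; simp
      rw [mem_insert, mem_singleton] at h3 h4
      have h5 : v = w v' := Subtype.ext (h3.resolve_left hne')
      have h6 : v' = w v := Subtype.ext (h4.resolve_left (Ne.symm hne'))
      have h7 := (hw v h1).2
      have h8 := (hw v' h2).2
      rw [← h6] at h7
      rw [← h5] at h8
      omega
  have h9 := Nat.card_le_card_of_injective φ hφ
  rw [Nat.card_sum] at h9
  have h10 : Nat.card ↥(S : Set (Fin n)) = S.card := by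
    rw [Nat.card_eq_fintype_card]
    simp
  have h11 : Nat.card {e // e ∈ E} = E.card := by
    rw [Nat.card_eq_fintype_card, Fintype.card_coe]
  rw [h10, h11] at h9
  exact h9

theorem eul_aux (n : ℕ) (S : Finset (Fin n)) (m : ℕ) : ∀ (G : SimpleGraph (Fin n))
    (A : Finset (Finset (Fin n))), A.card = m →
    (∀ f ∈ A, f.card = 3 ∧ f ⊆ S ∧ ∀ a ∈ f, ∀ b ∈ f, a ≠ b → G.Adj a b) →
    (∀ B ⊆ A, B.Nonempty → ∃ e ∈ edges G, (B.filter fun f => e ⊆ f).card = 1) →
    S.card + A.card ≤ ((edges G).filter fun e => e ⊆ S).card + comps G S := by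
  classical
  induction m with
  | zero =>
    intro G A hA _ _
    rw [hA, add_zero]
    exact eul_base G S
  | succ m ih =>
    intro G A hA h1 h2
    have hne : A.Nonempty := card_pos.1 (by omega)
    obtain ⟨e, he, hcard⟩ := h2 A (Subset.refl A) hne
    obtain ⟨f, hf⟩ := card_eq_one.1 hcard
    have hfA : f ∈ A ∧ e ⊆ f := by
      have : f ∈ A.filter fun f => e ⊆ f := by rw [hf]; exact mem_singleton_self f
      exact mem_filter.1 this
    have huniq : ∀ g ∈ A, e ⊆ g → g = f := by
      intro g hg heg
      have : g ∈ A.filter fun f => e ⊆ f := mem_filter.2 ⟨hg, heg⟩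
      rw [hf] at this
      exact mem_singleton.1 this
    obtain ⟨he2, headj⟩ := eul_mem_edges.1 he
    obtain ⟨a, b, hab, rfl⟩ := card_eq_two.1 he2
    obtain ⟨hf3, hfS, hfadj⟩ := h1 f hfA.1
    have haf : a ∈ f := hfA.2 (by simp)
    have hbf : b ∈ f := hfA.2 (by simp)
    obtain ⟨c, hcf, hc⟩ : ∃ c ∈ f, c ∉ ({a, b} : Finset (Fin n)) := by
      by_contra hcon
      push Not at hcon
      have : f.card ≤ ({a, b} : Finset (Fin n)).card := card_le_card hcon
      omega
    have hca : c ≠ a := fun h => hc (by simp [h])
    have hcb : c ≠ b := fun h => hc (by simp [h])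
    let G' := G.deleteEdges {s(a, b)}
    have hG' : ∀ p q, G'.Adj p q ↔ G.Adj p q ∧ s(p, q) ≠ s(a, b) := by
      intro p q
      show (G.deleteEdges {s(a, b)}).Adj p q ↔ _
      rw [SimpleGraph.deleteEdges_adj, Set.mem_singleton_iff]
    have hpair : ∀ p q, s(p, q) = s(a, b) → ∀ g : Finset (Fin n), p ∈ g → q ∈ g →
        ({a, b} : Finset (Fin n)) ⊆ g := by
      intro p q h g hp hq
      rw [Sym2.eq_iff] at h
      intro x hx
      rw [mem_insert, mem_singleton] at hx
      rcases h with ⟨rfl, rfl⟩ | ⟨rfl, rfl⟩ <;> rcases hx with rfl | rfl <;> assumption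
    have hA' : (A.erase f).card = m := by
      rw [card_erase_of_mem hfA.1, hA, Nat.add_sub_cancel]
    have key := ih G' (A.erase f) hA' ?_ ?_
    · -- the edges
      have hE : ((edges G').filter fun e => e ⊆ S) ⊆
          ((edges G).filter fun e => e ⊆ S).erase {a, b} := by
        intro x hx
        rw [mem_filter, eul_mem_edges] at hx
        obtain ⟨⟨hx2, hxadj⟩, hxS⟩ := hx
        rw [mem_erase, mem_filter, eul_mem_edges]
        refine ⟨?_, ⟨hx2, fun p hp q hq hpq => ((hG' p q).1 (hxadj p hp q hq hpq)).1⟩, hxS⟩
        rintro rfl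
        exact ((hG' a b).1 (hxadj a (by simp) b (by simp) hab)).2 rfl
      have hEm : ({a, b} : Finset (Fin n)) ∈ (edges G).filter fun e => e ⊆ S :=
        mem_filter.2 ⟨he, hfA.2.trans hfS⟩
      have hEc := card_le_card hE
      rw [card_erase_of_mem hEm] at hEc
      have hpos : 0 < ((edges G).filter fun e => e ⊆ S).card := card_pos.2 ⟨_, hEm⟩
      -- the components
      have hcomp : comps G' S = comps G S := by
        unfold comps
        have hr : (G'.induce (S : Set (Fin n))).Reachable = (G.induce (S : Set (Fin n))).Reachable := by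
          funext u v
          apply propext
          constructor
          · intro h
            refine h.mono ?_
            intro p q hpq
            exact ((hG' p q).1 hpq).1
          · intro h
            have hac : G'.Adj a c := (hG' a c).2 ⟨hfadj a haf c hcf (Ne.symm hca), by
              intro h
              rw [Sym2.eq_iff] at h
              rcases h with ⟨_, h⟩ | ⟨h, _⟩
              · exact hcb h
              · exact hab h⟩
            have hcb' : G'.Adj c b := (hG' c b).2 ⟨hfadj c hcf b hbf hcb, by
              intro h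
              rw [Sym2.eq_iff] at h
              rcases h with ⟨h, _⟩ | ⟨h, _⟩
              · exact hca h
              · exact hcb h⟩
            have hadj : ∀ p q : ↥(S : Set (Fin n)), (G.induce (S : Set (Fin n))).Adj p q →
                (G'.induce (S : Set (Fin n))).Reachable p q := by
              intro p q hpq
              have hpq' : G.Adj p q := hpq
              by_cases hs : s((p : Fin n), (q : Fin n)) = s(a, b)
              · have h1 : (G'.induce (S : Set (Fin n))).Adj ⟨a, hfS haf⟩ ⟨c, hfS hcf⟩ := hac
                have h2 : (G'.induce (S : Set (Fin n))).Adj ⟨c, hfS hcf⟩ ⟨b, hfS hbf⟩ := hcb'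
                have h3 := h1.reachable.trans h2.reachable
                rw [Sym2.eq_iff] at hs
                rcases hs with ⟨hp, hq⟩ | ⟨hp, hq⟩
                · have e1 : p = ⟨a, hfS haf⟩ := Subtype.ext hp
                  have e2 : q = ⟨b, hfS hbf⟩ := Subtype.ext hq
                  rw [e1, e2]
                  exact h3
                · have e1 : p = ⟨b, hfS hbf⟩ := Subtype.ext hp
                  have e2 : q = ⟨a, hfS haf⟩ := Subtype.ext hq
                  rw [e1, e2]
                  exact h3.symm
              · have h1 : (G'.induce (S : Set (Fin n))).Adj p q := (hG' p q).2 ⟨hpq', hs⟩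
                exact h1.reachable
            obtain ⟨p⟩ := h
            induction p with
            | nil => exact SimpleGraph.Reachable.refl _
            | cons h _ ih => exact (hadj _ _ h).trans ih
        unfold SimpleGraph.ConnectedComponent
        rw [hr]
      rw [hA'] at key
      rw [hcomp] at key
      omega
    · intro g hg
      obtain ⟨hgf, hgA⟩ := mem_erase.1 hg
      obtain ⟨g1, g2, g3⟩ := h1 g hgA
      refine ⟨g1, g2, fun p hp q hq hpq => (hG' p q).2 ⟨g3 p hp q hq hpq, fun h => ?_⟩⟩
      exact hgf (huniq g hgA (hpair p q h g hp hq))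
    · intro B hB hBne
      obtain ⟨x, hx, hxc⟩ := h2 B (hB.trans (erase_subset _ _)) hBne
      refine ⟨x, ?_, hxc⟩
      obtain ⟨g, hg⟩ := card_eq_one.1 hxc
      have hgB : g ∈ B ∧ x ⊆ g := by
        have : g ∈ B.filter fun f => x ⊆ f := by rw [hg]; exact mem_singleton_self g
        exact mem_filter.1 this
      obtain ⟨hgf, hgA⟩ := mem_erase.1 (hB hgB.1)
      obtain ⟨hx2, hxadj⟩ := eul_mem_edges.1 hx
      rw [eul_mem_edges]
      refine ⟨hx2, fun p hp q hq hpq => (hG' p q).2 ⟨hxadj p hp q hq hpq, fun h => ?_⟩⟩
      exact hgf (huniq g hgA ((hpair p q h x hp hq).trans hgB.2))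

/-- piece EUL -/
theorem eul : StEul := fun n G S A h1 h2 => eul_aux n S A.card G A rfl h1 h2

end Pool.Agent.K4H75.OS
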