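import Mathlib

open scoped ENNReal

namespace Pool.Agent.K4H47.PM

theorem lp_mono {n : ℕ} (q : ENNReal) [Fact (1 ≤ q)] (x y : Fin n → ℝ) (h : ∀ i, |x i| ≤ |y i|) :
    ‖(WithLp.toLp q x : PiLp q fun _ : Fin n => ℝ)‖ ≤
      ‖(WithLp.toLp q y : PiLp q fun _ : Fin n => ℝ)‖ := by
  rcases eq_or_ne q ∞ with rfl | hq
  · rw [PiLp.norm_eq_ciSup, PiLp.norm_eq_ciSup]
    exact Real.iSup_le (fun i => le_ciSup_of_le (Set.finite_range _).bddAbove i (h i))
      (Real.iSup_nonneg fun i => norm_nonneg _)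
  · have h1 : (1 : ℝ≥0∞) ≤ q := Fact.out
    have hq0 : 0 < q.toReal := ENNReal.toReal_pos (by intro h0; rw [h0] at h1; simp at h1) hq
    rw [PiLp.norm_eq_sum hq0, PiLp.norm_eq_sum hq0]
    gcongr with i _
    exact h i

end Pool.Agent.K4H47.PM
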