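import Mathlib

open scoped ENNReal

namespace Pool.Agent.K4H47.PM

theorem lp_norm_multiset60 {n : ℕ} (q : ENNReal) [Fact (1 ≤ q)] (x y : Fin n → ℝ)
    (h : Multiset.map (fun i => |x i|) Finset.univ.val = Multiset.map (fun i => |y i|) Finset.univ.val) :
    ‖(WithLp.toLp q x : PiLp q fun _ : Fin n => ℝ)‖ =
      ‖(WithLp.toLp q y : PiLp q fun _ : Fin n => ℝ)‖ := by
  rcases eq_or_ne q ∞ with rfl | hq
  · rw [PiLp.norm_eq_ciSup, PiLp.norm_eq_ciSup]
    have hr : Set.range (fun i => |x i|) = Set.range (fun i => |y i|) := by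
      ext a
      have := congrArg (fun s : Multiset ℝ => a ∈ s) h
      simpa [Multiset.mem_map] using this
    show sSup (Set.range (fun i => |x i|)) = sSup (Set.range (fun i => |y i|))
    rw [hr]
  · have h1 : (1 : ℝ≥0∞) ≤ q := Fact.out
    have hq0 : 0 < q.toReal := ENNReal.toReal_pos (by intro h0; rw [h0] at h1; simp at h1) hq
    rw [PiLp.norm_eq_sum hq0, PiLp.norm_eq_sum hq0]
    have := congrArg (fun s : Multiset ℝ => (s.map (fun t => t ^ q.toReal)).sum) h
    simp only [Multiset.map_map] at this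
    have e : ∑ i, |x i| ^ q.toReal = ∑ i, |y i| ^ q.toReal := this
    show (∑ i, |x i| ^ q.toReal) ^ (1 / q.toReal) = (∑ i, |y i| ^ q.toReal) ^ (1 / q.toReal)
    rw [e]

theorem roots60 {n : ℕ} (ν : Fin n → ℝ) :
    (∏ i, (Polynomial.X - Polynomial.C ((ν i : ℝ) : ℂ))).roots =
      Multiset.map (fun i => ((ν i : ℝ) : ℂ)) Finset.univ.val := by
  rw [Polynomial.roots_prod]
  · simp
  · simp [Finset.prod_ne_zero_iff, Polynomial.X_sub_C_ne_zero]

theorem schatten_herm {n : ℕ} (q : ENNReal) [Fact (1 ≤ q)] (A : Matrix (Fin n) (Fin n) ℂ)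
    (hA : A.IsHermitian) :
    ‖(WithLp.toLp q (fun i => Real.sqrt ((Matrix.isHermitian_conjTranspose_mul_self A).eigenvalues i)) :
      PiLp q fun _ : Fin n => ℝ)‖ =
    ‖(WithLp.toLp q hA.eigenvalues : PiLp q fun _ : Fin n => ℝ)‖ := by
  set hB := Matrix.isHermitian_conjTranspose_mul_self A with hBd
  have e1 : (A.conjTranspose * A) = Unitary.conjStarAlgAut ℂ _ hA.eigenvectorUnitary
      (Matrix.diagonal (fun i => ((hA.eigenvalues i ^ 2 : ℝ) : ℂ))) := by
    rw [hA.eq]
    conv_lhs => rw [hA.spectral_theorem]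
    rw [← map_mul, Matrix.diagonal_mul_diagonal]
    congr 2
    funext i
    show ((hA.eigenvalues i : ℝ) : ℂ) * ((hA.eigenvalues i : ℝ) : ℂ) = _
    push_cast
    ring
  have e2 : (A.conjTranspose * A).charpoly =
      ∏ i, (Polynomial.X - Polynomial.C (((hA.eigenvalues i) ^ 2 : ℝ) : ℂ)) := by
    rw [e1, Unitary.conjStarAlgAut_apply, Matrix.charpoly_mul_comm, ← mul_assoc]
    simp only [Unitary.coe_star_mul_self, one_mul, Matrix.charpoly_diagonal]
  have e3 := hB.roots_charpoly_eq_eigenvalues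
  rw [e2, roots60] at e3
  have e4 := congrArg (Multiset.map Complex.re) e3
  rw [Multiset.map_map, Multiset.map_map] at e4
  have e5 : Multiset.map (fun i => (hA.eigenvalues i) ^ 2) Finset.univ.val =
      Multiset.map (fun i => hB.eigenvalues i) Finset.univ.val := by
    exact e4
  apply lp_norm_multiset60
  have e6 := congrArg (Multiset.map (fun t => |Real.sqrt t|)) e5
  rw [Multiset.map_map, Multiset.map_map] at e6
  rw [show Multiset.map (fun i => |Real.sqrt (hB.eigenvalues i)|) Finset.univ.val = _ from e6.symm]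
  congr 1
  funext i
  show |Real.sqrt (hA.eigenvalues i ^ 2)| = _
  rw [Real.sqrt_sq_eq_abs, abs_abs]

end Pool.Agent.K4H47.PM
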