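import Pool.Agent.K4H72.Til.Spec

open Set

namespace Pool.Agent.K4H60.T13

open Pool.Agent.K4H72.Til

theorem E_sub' (v w : ℤ × ℤ) : E (v - w) = E v - E w := by
  simp [E]; ring

theorem E_add' (v w : ℤ × ℤ) : E (v + w) = E v + E w := by
  simp [E]; ring

theorem E_zero' : E 0 = 0 := by simp [E]

/-- bound of distances -/
theorem dist_bd (M D η a b s : ℝ) (hM : 1 ≤ M) (hD : 0 < D) (hη0 : 0 ≤ η) (h8 : 8 * η ≤ D)
    (ha : 0 ≤ a) (hb : 0 ≤ b)
    (h : M * a ≤ (2 * M * D + b) + η * (1 + 4 * a / D)) :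
    a ≤ 5 * D + 2 * b := by
  have h1 : η * (4 * a / D) ≤ a / 2 := by
    have : η * (4 * a / D) = (8 * η / D) * (a / 2) := by field_simp; ring
    rw [this]
    have h2 : 8 * η / D ≤ 1 := by rw [div_le_one hD]; exact h8
    nlinarith
  have h3 : M * a ≤ 2 * M * D + b + η + a / 2 := by nlinarith
  have h4 : M * a / 2 ≤ 2 * M * D + b + η := by nlinarith
  have h5 : M * a ≤ 4 * M * D + 2 * b + 2 * η := by linarith
  have h6 : 2 * b ≤ M * (2 * b) := by nlinarith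
  have h7 : 2 * η ≤ M * D := by nlinarith
  have h9 : M * a ≤ M * (5 * D + 2 * b) := by nlinarith
  exact le_of_mul_le_mul_left h9 (by linarith)

theorem deform_of
    (happrox : ∀ (F : Set ℂ) (_ : F.Finite) (η : ℝ) (_ : 0 < η),
      ∃ M : ℕ, 0 < M ∧ ∃ φ : AddSubgroup.closure F →+ ℤ × ℤ,
        ∀ f (hf : f ∈ F), ‖(M : ℂ) * f - E (φ ⟨f, AddSubgroup.subset_closure hf⟩)‖ ≤ η)
    (hchoice : ∃ c : Set ℂ → ℂ, (∀ A : Set ℂ, A.Finite → A.Nonempty → c A ∈ A) ∧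
      ∀ (A : Set ℂ) (t : ℂ), A.Finite → A.Nonempty → c ((fun z => z + t) '' A) = c A + t)
    (hEcases : ∀ v : ℤ × ℤ, v = 0 ∨ (v ∈ six ∧ ‖E v‖ = 1) ∨ 3 ≤ ‖E v‖ ^ 2)
    (hlip : ∀ (P : Set ℂ) (D : ℝ) (_ : 0 < D) (_ : ∀ x : ℂ, ∃ p ∈ P, ‖x - p‖ ≤ D / 4)
      (u : ℂ → ℂ) (η : ℝ) (_ : 0 ≤ η) (_ : ∀ p ∈ P, ∀ p' ∈ P, ‖p - p'‖ ≤ D → ‖u p - u p'‖ ≤ η),
      ∀ p ∈ P, ∀ p' ∈ P, ‖u p - u p'‖ ≤ η * (1 + 4 * ‖p - p'‖ / D))
    (hmem : ∀ (P : Set ℂ) (D : ℝ) (_ : 0 < D) (_ : ∀ x : ℂ, ∃ p ∈ P, ‖x - p‖ ≤ D / 4)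
      (G : AddSubgroup ℂ) (_ : ∀ p ∈ P, ∀ p' ∈ P, ‖p - p'‖ ≤ D → p - p' ∈ G),
      ∀ p ∈ P, ∀ p' ∈ P, p - p' ∈ G)
    (hnear : ∀ (P : Set ℂ) (D : ℝ) (_ : 0 < D) (_ : ∀ x : ℂ, ∃ p ∈ P, ‖x - p‖ ≤ D / 4)
      (Φ : ℂ → ℤ × ℤ) (M : ℝ) (_ : 1 ≤ M)
      (_ : ∀ p ∈ P, ∀ p' ∈ P, ‖p - p'‖ ≤ D → ‖(M : ℂ) * (p - p') - E (Φ p - Φ p')‖ ≤ D / 8),
      ∀ v : ℤ × ℤ, ∃ p ∈ P, ‖E (Φ p - v)‖ ≤ M * D)
    (P : Set ℂ) (D : ℝ) (hD : 0 < D) (hdense : ∀ x : ℂ, ∃ p ∈ P, ‖x - p‖ ≤ D / 4)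
    (hfin : {d : ℂ | ∃ p ∈ P, ∃ p' ∈ P, d = p - p' ∧ ‖d‖ ≤ 8 * D}.Finite) :
    ∃ (h : ℝ) (g : ℤ × ℤ → ℂ), Def1 h g ∧ ∀ R2 : ℝ, ∃ R : ℝ, ∀ x y : ℂ,
      (∀ p : ℂ, ‖p‖ < R → (x + p ∈ P ↔ y + p ∈ P)) →
        ∃ τ : ℤ × ℤ, ∀ v, ‖g v - x‖ ≤ R2 → g (v + τ) = g v + (y - x) := by
  classical
  set F : Set ℂ := {d : ℂ | ∃ p ∈ P, ∃ p' ∈ P, d = p - p' ∧ ‖d‖ ≤ 8 * D} with hF
  -- the constant η
  obtain ⟨η, hη0, hη1, hη2⟩ : ∃ η : ℝ, 0 < η ∧ 8 * η ≤ D ∧ η * (25 + 8 / D) ≤ 1 / 20 := by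
    refine ⟨min (D / 8) (1 / 20 / (25 + 8 / D)), ?_, ?_, ?_⟩
    · have : 0 < 25 + 8 / D := by positivity
      exact lt_min (by positivity) (by positivity)
    · have := min_le_left (D / 8) (1 / 20 / (25 + 8 / D))
      linarith
    · have h1 : 0 < 25 + 8 / D := by positivity
      have := min_le_right (D / 8) (1 / 20 / (25 + 8 / D))
      calc min (D / 8) (1 / 20 / (25 + 8 / D)) * (25 + 8 / D)
          ≤ (1 / 20 / (25 + 8 / D)) * (25 + 8 / D) := by gcongr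
        _ = 1 / 20 := by field_simp
  obtain ⟨M, hM0, φ, hφ⟩ := happrox F hfin η hη0
  obtain ⟨c, hc1, hc2⟩ := hchoice
  have hM1 : (1 : ℝ) ≤ (M : ℝ) := by exact_mod_cast hM0
  have hMC : (M : ℂ) ≠ 0 := by exact_mod_cast hM0.ne'
  obtain ⟨p0, hp0, -⟩ := hdense 0
  have hG : ∀ p ∈ P, ∀ p' ∈ P, p - p' ∈ AddSubgroup.closure F := by
    apply hmem P D hD hdense
    intro p hp p' hp' h
    exact AddSubgroup.subset_closure ⟨p, hp, p', hp', rfl, by linarith⟩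
  -- Φ
  set Φ : ℂ → ℤ × ℤ := fun p => if h : p - p0 ∈ AddSubgroup.closure F then φ ⟨p - p0, h⟩ else 0
    with hΦdef
  have hΦ : ∀ p ∈ P, ∀ p' ∈ P, ∀ (h : p - p' ∈ AddSubgroup.closure F),
      Φ p - Φ p' = φ ⟨p - p', h⟩ := by
    intro p hp p' hp' h
    have h1 := hG p hp p0 hp0
    have h2 := hG p' hp' p0 hp0
    simp only [hΦdef, h1, h2, dif_pos]
    rw [← map_sub]
    congr 1
    ext
    simp
  have hΦd : ∀ p ∈ P, ∀ p' ∈ P, ∀ q ∈ P, ∀ q' ∈ P, p - p' = q - q' → Φ p - Φ p' = Φ q - Φ q' := by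
    intro p hp p' hp' q hq q' hq' h
    rw [hΦ p hp p' hp' (hG p hp p' hp'), hΦ q hq q' hq' (hG q hq q' hq')]
    congr 1
    ext
    exact h
  set u : ℂ → ℂ := fun p => (M : ℂ) * p - E (Φ p) with hu
  have hu1 : ∀ p p', u p - u p' = (M : ℂ) * (p - p') - E (Φ p - Φ p') := by
    intro p p'
    rw [E_sub']; simp only [hu]; ring
  have hu2 : ∀ p ∈ P, ∀ p' ∈ P, ‖p - p'‖ ≤ D → ‖u p - u p'‖ ≤ η := by
    intro p hp p' hp' h
    rw [hu1]
    have hmF : p - p' ∈ F := ⟨p, hp, p', hp', rfl, by linarith⟩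
    rw [hΦ p hp p' hp' (AddSubgroup.subset_closure hmF)]
    exact hφ _ hmF
  have hu3 := hlip P D hD hdense u η hη0.le hu2
  have hnr : ∀ v : ℤ × ℤ, ∃ p ∈ P, ‖E (Φ p - v)‖ ≤ (M : ℝ) * D := by
    apply hnear P D hD hdense Φ (M : ℝ) hM1
    intro p hp p' hp' h
    have := hu2 p hp p' hp' h
    rw [hu1] at this
    push_cast
    linarith
  set N : ℤ × ℤ → Set ℂ := fun v => {p | p ∈ P ∧ ‖E (Φ p - v)‖ ≤ (M : ℝ) * D} with hN
  have hNne : ∀ v, (N v).Nonempty := by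
    intro v
    obtain ⟨p, hp, h⟩ := hnr v
    exact ⟨p, hp, h⟩
  -- distance between points of N v and N w
  have hMd : ∀ p p', (M : ℝ) * ‖p - p'‖ ≤ ‖E (Φ p - Φ p')‖ + ‖u p - u p'‖ := by
    intro p p'
    have h1 : (M : ℂ) * (p - p') = E (Φ p - Φ p') + (u p - u p') := by
      rw [hu1]; ring
    calc (M : ℝ) * ‖p - p'‖ = ‖(M : ℂ) * (p - p')‖ := by
          rw [norm_mul]; simp
      _ = ‖E (Φ p - Φ p') + (u p - u p')‖ := by rw [h1]
      _ ≤ _ := norm_add_le _ _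
  have hNd : ∀ v w, ∀ p ∈ N v, ∀ q ∈ N w, ‖p - q‖ ≤ 5 * D + 2 * ‖E (v - w)‖ := by
    intro v w p hp q hq
    apply dist_bd (M : ℝ) D η ‖p - q‖ ‖E (v - w)‖ 0 hM1 hD hη0.le hη1 (norm_nonneg _) (norm_nonneg _)
    have h1 := hMd p q
    have h2 := hu3 p hp.1 q hq.1
    have h3 : E (Φ p - Φ q) = E (Φ p - v) - E (Φ q - w) + E (v - w) := by
      simp only [E_sub']; ring
    have h4 : ‖E (Φ p - Φ q)‖ ≤ ‖E (Φ p - v)‖ + ‖E (Φ q - w)‖ + ‖E (v - w)‖ := by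
      rw [h3]
      exact (norm_add_le _ _).trans (by gcongr; exact norm_sub_le _ _)
    have h5 := hp.2
    have h6 := hq.2
    linarith
  have hNd0 : ∀ v, ∀ p ∈ N v, ∀ q ∈ N v, ‖p - q‖ ≤ 5 * D := by
    intro v p hp q hq
    have := hNd v v p hp q hq
    rw [sub_self, E_zero', norm_zero] at this
    linarith
  have hNfin : ∀ v, (N v).Finite := by
    intro v
    obtain ⟨q, hq⟩ := hNne v
    apply (hfin.image (fun d => d + q)).subset
    intro p hp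
    refine ⟨p - q, ⟨p, hp.1, q, hq.1, rfl, ?_⟩, by simp⟩
    have := hNd0 v p hp q hq
    linarith
  have hcN : ∀ v, c (u '' N v) ∈ u '' N v := fun v =>
    hc1 _ ((hNfin v).image u) ((hNne v).image u)
  set g : ℤ × ℤ → ℂ := fun v => (E v + c (u '' N v)) / (M : ℂ) with hg
  have hMg : ∀ v, (M : ℂ) * g v = E v + c (u '' N v) := by
    intro v; simp only [hg]; field_simp
  refine ⟨1 / (M : ℝ), g, ⟨by positivity, ?_⟩, ?_⟩
  · intro v w
    rcases eq_or_ne v w with rfl | hvw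
    · simp [E_zero']
    obtain ⟨p, hp, hpc⟩ := hcN v
    obtain ⟨q, hq, hqc⟩ := hcN w
    have h1 : g v - g w - ((1 / (M : ℝ) : ℝ) : ℂ) * E (v - w) = (u p - u q) / (M : ℂ) := by
      simp only [hg]
      rw [← hpc, ← hqc, E_sub']
      push_cast
      field_simp
      ring
    rw [h1, norm_div, Complex.norm_natCast]
    have hE1 : 1 ≤ ‖E (v - w)‖ := by
      rcases hEcases (v - w) with h | h | h
      · exact absurd (sub_eq_zero.mp h) hvw
      · exact h.2.ge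
      · nlinarith [norm_nonneg (E (v - w))]
    have h2 := hu3 p hp.1 q hq.1
    have h3 := hNd v w p hp q hq
    have h4 : 4 * ‖p - q‖ / D ≤ 20 + 8 / D * ‖E (v - w)‖ := by
      rw [div_le_iff₀ hD]
      have : (20 + 8 / D * ‖E (v - w)‖) * D = 20 * D + 8 * ‖E (v - w)‖ := by
        field_simp
      rw [this]; linarith
    have h5 : ‖u p - u q‖ ≤ 1 / 20 * ‖E (v - w)‖ := by
      calc ‖u p - u q‖ ≤ η * (1 + 4 * ‖p - q‖ / D) := h2
        _ ≤ η * (1 + (20 + 8 / D * ‖E (v - w)‖)) := by gcongr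
        _ ≤ η * ((25 + 8 / D) * ‖E (v - w)‖) := by
            gcongr
            nlinarith
        _ = (η * (25 + 8 / D)) * ‖E (v - w)‖ := by ring
        _ ≤ 1 / 20 * ‖E (v - w)‖ := by gcongr
    calc ‖u p - u q‖ / (M : ℝ) ≤ (1 / 20 * ‖E (v - w)‖) / (M : ℝ) := by gcongr
      _ = 1 / 20 * (1 / (M : ℝ)) * ‖E (v - w)‖ := by ring
  · intro R2
    refine ⟨|R2| + 20 * D, ?_⟩
    intro x y hxy
    obtain ⟨p1, hp1, hp1x⟩ := hdense x
    -- translate of p1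
    have key : ∀ p : ℂ, ‖p - x‖ < |R2| + 20 * D → (p ∈ P ↔ p + (y - x) ∈ P) := by
      intro p hp
      have := hxy (p - x) hp
      have e1 : x + (p - x) = p := by ring
      have e2 : y + (p - x) = p + (y - x) := by ring
      rwa [e1, e2] at this
    have hp1' : p1 + (y - x) ∈ P := by
      rw [← key p1]
      · exact hp1
      · rw [norm_sub_rev]
        have := abs_nonneg R2
        linarith
    refine ⟨Φ (p1 + (y - x)) - Φ p1, ?_⟩
    intro v hv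
    set τ := Φ (p1 + (y - x)) - Φ p1 with hτ
    have hshift : ∀ p ∈ P, p + (y - x) ∈ P → Φ (p + (y - x)) = Φ p + τ := by
      intro p hp hp'
      have := hΦd (p + (y - x)) hp' (p1 + (y - x)) hp1' p hp p1 hp1 (by ring)
      rw [hτ]
      have h2 : Φ (p + (y - x)) = Φ p - Φ p1 + Φ (p1 + (y - x)) := by
        rw [← this]; abel
      rw [h2]; abel
    have hR2 : R2 ≤ |R2| := le_abs_self _
    have hNx : ∀ p ∈ N v, ‖p - x‖ ≤ |R2| + 10 * D := by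
      intro p hp
      obtain ⟨q, hq, hqc⟩ := hcN v
      have h1 : (M : ℂ) * (p - g v) = E (Φ p - v) + (u p - u q) := by
        rw [mul_sub, hMg, ← hqc, E_sub']
        simp only [hu]; ring
      have h2 : (M : ℝ) * ‖p - g v‖ ≤ (M : ℝ) * D + η * 21 := by
        calc (M : ℝ) * ‖p - g v‖ = ‖(M : ℂ) * (p - g v)‖ := by rw [norm_mul]; simp
          _ = ‖E (Φ p - v) + (u p - u q)‖ := by rw [h1]
          _ ≤ ‖E (Φ p - v)‖ + ‖u p - u q‖ := norm_add_le _ _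
          _ ≤ (M : ℝ) * D + η * (1 + 4 * ‖p - q‖ / D) := add_le_add hp.2 (hu3 p hp.1 q hq.1)
          _ ≤ (M : ℝ) * D + η * 21 := by
              gcongr
              have := hNd0 v p hp q hq
              have h4 : 4 * ‖p - q‖ / D ≤ 20 := by
                rw [div_le_iff₀ hD]; linarith
              linarith
      have h3 : ‖p - g v‖ ≤ 4 * D := by
        have : (M : ℝ) * ‖p - g v‖ ≤ (M : ℝ) * (4 * D) := by nlinarith
        exact le_of_mul_le_mul_left this (by linarith)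
      calc ‖p - x‖ = ‖(p - g v) + (g v - x)‖ := by congr 1; ring
        _ ≤ ‖p - g v‖ + ‖g v - x‖ := norm_add_le _ _
        _ ≤ _ := by linarith
    have hNs : N (v + τ) = (fun z => z + (y - x)) '' N v := by
      apply Set.Subset.antisymm
      · intro p' hp'
        obtain ⟨q, hq⟩ := hNne v
        have hqx := hNx q hq
        have hqP : q + (y - x) ∈ P := (key q (by linarith)).mp hq.1
        have hq' : q + (y - x) ∈ N (v + τ) := by
          refine ⟨hqP, ?_⟩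
          rw [hshift q hq.1 hqP]
          have : Φ q + τ - (v + τ) = Φ q - v := by abel
          rw [this]; exact hq.2
        have h1 := hNd0 _ p' hp' _ hq'
        have h2 : ‖p' - (y - x) - x‖ < |R2| + 20 * D := by
          calc ‖p' - (y - x) - x‖ = ‖(p' - (q + (y - x))) + (q - x)‖ := by congr 1; ring
            _ ≤ ‖p' - (q + (y - x))‖ + ‖q - x‖ := norm_add_le _ _
            _ < _ := by linarith
        have h3 := key (p' - (y - x)) h2
        have e1 : p' - (y - x) + (y - x) = p' := by ring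
        rw [e1] at h3
        have hpP := h3.mpr hp'.1
        refine ⟨p' - (y - x), ⟨hpP, ?_⟩, e1⟩
        have h4 := hshift (p' - (y - x)) hpP (by rw [e1]; exact hp'.1)
        rw [e1] at h4
        have h5 : Φ (p' - (y - x)) - v = Φ p' - (v + τ) := by
          rw [h4]; abel
        rw [h5]; exact hp'.2
      · rintro _ ⟨p, hp, rfl⟩
        have hpx := hNx p hp
        have hpP : p + (y - x) ∈ P := (key p (by linarith)).mp hp.1
        refine ⟨hpP, ?_⟩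
        have : Φ (p + (y - x)) - (v + τ) = Φ p - v := by
          rw [hshift p hp.1 hpP]; abel
        show ‖E (Φ (p + (y - x)) - (v + τ))‖ ≤ _
        rw [this]; exact hp.2
    have huN : u '' N (v + τ) = (fun z => z + ((M : ℂ) * (y - x) - E τ)) '' (u '' N v) := by
      rw [hNs, Set.image_image, Set.image_image]
      apply Set.image_congr
      intro p hp
      have hpx := hNx p hp
      have hpP : p + (y - x) ∈ P := (key p (by linarith)).mp hp.1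
      simp only [hu]
      rw [hshift p hp.1 hpP, E_add']
      ring
    have hfinal : (M : ℂ) * g (v + τ) = (M : ℂ) * (g v + (y - x)) := by
      rw [mul_add, hMg, hMg, huN, hc2 _ _ ((hNfin v).image u) ((hNne v).image u), E_add']
      ring
    exact mul_left_cancel₀ hMC hfinal

end Pool.Agent.K4H60.T13
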