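import Pool.Agent.K4H72.Til.Spec

open Set

namespace Pool.Agent.K4H72.Til

namespace T8

theorem E_im (v : ℤ × ℤ) : (E v).im = v.2 * (Real.sqrt 3 / 2) := by
  simp [E, ζ]

theorem E_re (v : ℤ × ℤ) : (E v).re = v.1 + v.2 * (1 / 2) := by
  simp [E, ζ]

theorem fin (r : ℝ) : {v : ℤ × ℤ | ‖E v‖ ≤ r}.Finite := by
  refine Set.Finite.subset ((Set.finite_Icc (-⌈2 * r⌉) ⌈2 * r⌉).prod
    (Set.finite_Icc (-⌈2 * r⌉) ⌈2 * r⌉)) ?_
  intro v hv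
  have hv' : ‖E v‖ ≤ r := hv
  have h1 := (Complex.abs_im_le_norm (E v)).trans hv'
  have h2 := (Complex.abs_re_le_norm (E v)).trans hv'
  rw [E_im, abs_mul] at h1
  rw [E_re] at h2
  have h3 : (1 : ℝ) ≤ Real.sqrt 3 := by
    rw [Real.one_le_sqrt]
    norm_num
  have h4 : (1 : ℝ) / 2 ≤ |Real.sqrt 3 / 2| := by
    rw [abs_of_nonneg (by positivity)]
    linarith
  have h5 : |(v.2 : ℝ)| * (1 / 2) ≤ r :=
    (mul_le_mul_of_nonneg_left h4 (abs_nonneg _)).trans h1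
  have h6 := abs_le.1 h2
  have h7 : |(v.2 : ℝ)| ≤ 2 * r := by linarith
  have h8 := abs_le.1 h7
  have hc := Int.le_ceil (2 * r)
  have h9 : (v.1 : ℝ) ≤ 2 * r := by linarith
  have h10 : -(2 * r) ≤ (v.1 : ℝ) := by linarith
  simp only [Set.mem_prod, Set.mem_Icc]
  refine ⟨⟨?_, ?_⟩, ⟨?_, ?_⟩⟩
  · have : (-(⌈2 * r⌉ : ℤ) : ℝ) ≤ (v.1 : ℝ) := by linarith
    exact_mod_cast this
  · have : (v.1 : ℝ) ≤ (⌈2 * r⌉ : ℤ) := by linarith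
    exact_mod_cast this
  · have : (-(⌈2 * r⌉ : ℤ) : ℝ) ≤ (v.2 : ℝ) := by linarith
    exact_mod_cast this
  · have : (v.2 : ℝ) ≤ (⌈2 * r⌉ : ℤ) := by linarith
    exact_mod_cast this

end T8

theorem cover (h : ℝ) (g : ℤ × ℤ → ℂ) (hg : Def1 h g) (z : ℂ) : ∃ v, z ∈ cell g v := by
  have hh := hg.1
  have hfin : {w : ℤ × ℤ | ‖z - g w‖ ≤ ‖z - g 0‖}.Finite := by
    refine (T8.fin (2 * ‖z - g 0‖ / (19 / 20 * h))).subset ?_
    intro w hw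
    have hw' : ‖z - g w‖ ≤ ‖z - g 0‖ := hw
    show ‖E w‖ ≤ _
    have h1 := hg.2 w 0
    rw [sub_zero] at h1
    have h2 : ‖(h : ℂ) * E w‖ = h * ‖E w‖ := by
      rw [norm_mul, Complex.norm_real, Real.norm_of_nonneg hh.le]
    have h3 : ‖g w - g 0‖ ≤ 2 * ‖z - g 0‖ := by
      have : g w - g 0 = (z - g 0) - (z - g w) := by ring
      rw [this]
      exact (norm_sub_le _ _).trans (by linarith)
    have h4 : ‖(h : ℂ) * E w‖ ≤ ‖g w - g 0‖ + ‖g w - g 0 - (h : ℂ) * E w‖ := by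
      have := norm_sub_le (g w - g 0) (g w - g 0 - (h : ℂ) * E w)
      rwa [sub_sub_cancel] at this
    rw [h2] at h4
    rw [le_div_iff₀ (by positivity)]
    nlinarith
  have h0 : (0 : ℤ × ℤ) ∈ {w : ℤ × ℤ | ‖z - g w‖ ≤ ‖z - g 0‖} := le_refl ‖z - g 0‖
  obtain ⟨v, hv, hmin⟩ := Set.exists_min_image _ (fun w => ‖z - g w‖) hfin ⟨0, h0⟩
  refine ⟨v, fun w => ?_⟩
  by_cases hw : ‖z - g w‖ ≤ ‖z - g 0‖
  · exact hmin w hw
  · exact (show ‖z - g v‖ ≤ ‖z - g 0‖ from hv).trans (not_le.1 hw).le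

theorem self_mem (g : ℤ × ℤ → ℂ) (v : ℤ × ℤ) : g v ∈ cell g v := by
  intro w
  rw [sub_self, norm_zero]
  exact norm_nonneg _

end Pool.Agent.K4H72.Til
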